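import Pool.Agent.N71.RP.Stm
import Pool.Agent.H38R2.CG.N3a
import Pool.Agent.H38R2.CG.KR
import Pool.Agent.H38R2.CG.PV
import Pool.Agent.N478.EX.MER

/-!
# Project RP (helper71), leaf REP: repulsion
-/

set_option autoImplicit false

namespace Pool.Agent.N966.RP

open Finset Filter NumberField Pool.Agent.H38R2.CG Pool.Agent.N71.RP
open Pool.Agent.N71.EX (PE)
open Pool.Agent.N478.EX (fac mertens_prod)
open scoped Classical

/-- Mertens in a range -/
theorem mertens_range : ∃ K : ℝ, 0 < K ∧ ∀ D X : ℕ, 2 ≤ D → D ≤ X →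
    ∏ p ∈ (Ioc D X).filter Nat.Prime, (1 - 1 / (p : ℝ))⁻¹ ≤
      K * (Real.log X / Real.log D) := by
  obtain ⟨C, hC0, hC⟩ := Pool.Agent.Helper923.HMertens.mertens_ratio
  have hl2 : 0 < Real.log 2 := Real.log_pos (by norm_num)
  refine ⟨Real.exp (1 + C / Real.log 2), by positivity, fun D X hD hX => ?_⟩
  have hDr : (2 : ℝ) ≤ D := by exact_mod_cast hD
  have hXr : (2 : ℝ) ≤ X := by exact_mod_cast hD.trans hX
  have hlD : 0 < Real.log D := Real.log_pos (by linarith)
  have hlX : 0 < Real.log X := Real.log_pos (by linarith)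
  have h2 : ∀ p ∈ (Ioc D X).filter Nat.Prime, (2 : ℝ) ≤ p := by
    intro p hp
    rw [mem_filter] at hp
    exact_mod_cast hp.2.two_le
  have h0 : ∏ p ∈ (Ioc D X).filter Nat.Prime, (1 - 1 / (p : ℝ))⁻¹ =
      ∏ p ∈ (Ioc D X).filter Nat.Prime, (1 + 1 / ((p : ℝ) - 1)) := by
    apply Finset.prod_congr rfl
    intro p hp
    have h3 := h2 p hp
    have h4 : (p : ℝ) - 1 ≠ 0 := by linarith
    have h5 : (p : ℝ) ≠ 0 := by linarith
    have h6 : (1 - 1 / (p : ℝ)) = (p - 1) / p := by field_simp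
    rw [h6, inv_div]
    field_simp
    ring
  rw [h0]
  have h1 : ∏ p ∈ (Ioc D X).filter Nat.Prime, (1 + 1 / ((p : ℝ) - 1)) ≤
      Real.exp (∑ p ∈ (Ioc D X).filter Nat.Prime, 1 / ((p : ℝ) - 1)) := by
    rw [Real.exp_sum]
    apply Finset.prod_le_prod
    · intro p hp
      have := h2 p hp
      have : 0 ≤ 1 / ((p : ℝ) - 1) := div_nonneg zero_le_one (by linarith)
      linarith
    · intro p _
      have := Real.add_one_le_exp (1 / ((p : ℝ) - 1))
      linarith
  have h3 : ∑ p ∈ (Ioc D X).filter Nat.Prime, 1 / ((p : ℝ) - 1) ≤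
      ∑ p ∈ (Ioc D X).filter Nat.Prime, (1 : ℝ) / p + 1 := by
    have e2 : ∀ p ∈ (Ioc D X).filter Nat.Prime, 1 / ((p : ℝ) - 1) =
        (1 : ℝ) / p + (1 / ((p : ℝ) - 1) - 1 / p) := by
      intro p _
      ring
    rw [sum_congr rfl e2, sum_add_distrib]
    have e3 : ∑ p ∈ (Ioc D X).filter Nat.Prime, (1 / ((p : ℝ) - 1) - 1 / p) ≤
        ∑ p ∈ Ioc D X, (1 / ((p : ℝ) - 1) - 1 / p) := by
      apply sum_le_sum_of_subset_of_nonneg (filter_subset _ _)
      intro p hp _
      rw [mem_Ioc] at hp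
      have hp2 : (2 : ℝ) < p := by exact_mod_cast (lt_of_le_of_lt hD hp.1)
      have : 1 / (p : ℝ) ≤ 1 / ((p : ℝ) - 1) :=
        one_div_le_one_div_of_le (by linarith) (by linarith)
      linarith
    have e4 : ∀ n : ℕ, D ≤ n → ∑ p ∈ Ioc D n, (1 / ((p : ℝ) - 1) - 1 / p) = 1 / D - 1 / n := by
      intro n hn
      induction n, hn using Nat.le_induction with
      | base => simp
      | succ n hn ih =>
        rw [sum_Ioc_succ_top (by omega), ih]
        push_cast
        ring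
    rw [e4 X hX] at e3
    have e5 : (0 : ℝ) ≤ 1 / X := by positivity
    have e6 : (1 : ℝ) / D ≤ 1 := by
      rw [div_le_one (by linarith)]
      linarith
    linarith
  have h4 := (abs_le.1 (hC D X hD hX)).2
  have h7 : C / Real.log D ≤ C / Real.log 2 :=
    div_le_div_of_nonneg_left hC0 hl2 (Real.log_le_log (by norm_num) hDr)
  refine h1.trans ?_
  have h5 : ∑ p ∈ (Ioc D X).filter Nat.Prime, 1 / ((p : ℝ) - 1) ≤
      (1 + C / Real.log 2) + Real.log (Real.log X / Real.log D) := by linarith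
  refine (Real.exp_le_exp.2 h5).trans (le_of_eq ?_)
  rw [Real.exp_add, Real.exp_log (by positivity)]

theorem PE_pos (D z : ℕ) : 0 < PE D z := by
  unfold PE
  refine prod_pos fun p hp => ?_
  exact inv_pos.2 (fac D (mem_filter.1 hp).2).2.1

theorem prod_ge (D X : ℕ) : (1 : ℝ) ≤ ∏ p ∈ (Ioc D X).filter Nat.Prime,
    ((1 - (chi D p : ℝ) / p)⁻¹ * (1 - 1 / (p : ℝ))⁻¹) := by
  calc (1 : ℝ) = ∏ p ∈ (Ioc D X).filter Nat.Prime, (1 : ℝ) := by rw [Finset.prod_const_one]
    _ ≤ _ := by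
      refine Finset.prod_le_prod (fun _ _ => zero_le_one) fun p hp => ?_
      obtain ⟨f1, f2, f3, f4⟩ := fac D (mem_filter.1 hp).2
      calc (1 : ℝ) = (1 - 1 / (p : ℝ)) * (1 - 1 / (p : ℝ))⁻¹ := (mul_inv_cancel₀ f1.ne').symm
        _ ≤ _ := mul_le_mul_of_nonneg_right f4 (inv_nonneg.2 f1.le)

theorem PE_le (D X : ℕ) (hX : D ≤ X) :
    PE D D ≤ PE D X * ∏ p ∈ (Ioc D X).filter Nat.Prime, (1 - 1 / (p : ℝ))⁻¹ := by
  have h1 : (Finset.Icc 1 X).filter Nat.Prime =
      (Finset.Icc 1 D).filter Nat.Prime ∪ (Ioc D X).filter Nat.Prime := by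
    ext p
    simp only [mem_filter, mem_union, mem_Icc, mem_Ioc]
    constructor
    · rintro ⟨⟨a1, a2⟩, a3⟩
      rcases le_or_gt p D with h | h
      · exact Or.inl ⟨⟨a1, h⟩, a3⟩
      · exact Or.inr ⟨⟨h, a2⟩, a3⟩
    · rintro (⟨⟨a1, a2⟩, a3⟩ | ⟨⟨a1, a2⟩, a3⟩)
      · exact ⟨⟨a1, a2.trans hX⟩, a3⟩
      · exact ⟨⟨by omega, a2⟩, a3⟩
  have hdis : Disjoint ((Finset.Icc 1 D).filter Nat.Prime) ((Ioc D X).filter Nat.Prime) := by
    rw [Finset.disjoint_left]
    intro p hp hp'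
    rw [mem_filter, mem_Icc] at hp
    rw [mem_filter, mem_Ioc] at hp'
    omega
  have h2 : PE D X = PE D D * ∏ p ∈ (Ioc D X).filter Nat.Prime, (1 - (chi D p : ℝ) / p)⁻¹ := by
    unfold PE
    rw [h1, prod_union hdis]
  rw [h2, mul_assoc, ← prod_mul_distrib]
  refine le_mul_of_one_le_right (PE_pos D D).le ?_
  exact prod_ge D X

theorem t_REP (hCOMB : E_COMB) (hCHR : E_CHR) (hSIE : Pool.Agent.N71.BI.E_SIE) : E_REP := by
  obtain ⟨c₂, X₀, hc₂, hX₀, hcomb⟩ := hCOMB
  obtain ⟨c₁, hc₁, hsie⟩ := hSIE 1 one_pos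
  obtain ⟨C, hC, hN⟩ := T_N3a T_KR T_PV
  obtain ⟨K, hK, hrange⟩ := mertens_range
  obtain ⟨M, hM, hmer⟩ := mertens_prod
  intro A hA
  obtain ⟨X₁, hX₁⟩ := exists_nat_gt (max (C / c₁) (2 * C * M / c₂))
  set Y : ℕ := max X₀ (X₁ + 1) with hY
  have hY0 : (0 : ℝ) < Y := by
    have : 0 < Y := lt_of_lt_of_le (by omega) (le_max_right _ _)
    exact_mod_cast this
  refine ⟨min (c₂ / 2 / (K * A)) (c₁ / (M * Y ^ 2)), by positivity, ?_⟩
  intro D₁ D₂ hD₁ hD₂ hlt hle
  have hD₁2 : 2 ≤ D₁ := hD₁.1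
  have hD₂2 : 2 ≤ D₂ := hD₂.1
  have hLone : ∀ D, IsFund D → c₁ / D ≤ Lone D := by
    intro D hD
    have := hsie D hD
    rw [Real.rpow_neg (Nat.cast_nonneg D), Real.rpow_one] at this
    rw [div_eq_mul_inv]
    exact this
  rcases lt_or_ge D₂ Y with hsmall | hlarge
  · -- small discriminants
    right
    refine (min_le_right _ _).trans ?_
    have h1 := hLone D₂ hD₂
    have hD₂r : (0 : ℝ) < D₂ := by exact_mod_cast (by omega : 0 < D₂)
    have hD₂Y : (D₂ : ℝ) ≤ Y := by exact_mod_cast hsmall.le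
    have h2 : PE D₂ D₂ ≤ M * Real.log D₂ := by
      refine le_trans ?_ (hmer D₂ hD₂2)
      unfold PE
      refine Finset.prod_le_prod (fun p hp => ?_) (fun p hp => ?_)
      · exact (inv_pos.2 (fac D₂ (mem_filter.1 hp).2).2.1).le
      · obtain ⟨f1, f2, f3, f4⟩ := fac D₂ (mem_filter.1 hp).2
        exact inv_anti₀ f1 f3
    have h3 : Real.log D₂ ≤ Y := by
      have := Real.log_le_sub_one_of_pos hD₂r
      linarith
    have h4 : PE D₂ D₂ ≤ M * Y := h2.trans (mul_le_mul_of_nonneg_left h3 hM.le)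
    have h5 : c₁ / Y ≤ Lone D₂ := by
      refine le_trans ?_ h1
      exact div_le_div_of_nonneg_left hc₁.le hD₂r hD₂Y
    rw [le_div_iff₀ (PE_pos _ _)]
    calc c₁ / (M * (Y : ℝ) ^ 2) * PE D₂ D₂ ≤ c₁ / (M * (Y : ℝ) ^ 2) * (M * Y) :=
          mul_le_mul_of_nonneg_left h4 (by positivity)
      _ = c₁ / Y := by field_simp
      _ ≤ Lone D₂ := h5
  · -- large discriminants
    set X := D₂ with hX
    have hXX₀ : X₀ ≤ X := (le_max_left _ _).trans hlarge
    have hXX₁ : X₁ + 1 ≤ X := (le_max_right _ _).trans hlarge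
    have hXr1 : (X₁ : ℝ) + 1 ≤ X := by exact_mod_cast hXX₁
    have hX1 : (1 : ℝ) ≤ X := by
      have : 1 ≤ X := by omega
      exact_mod_cast this
    have hXpos : (0 : ℝ) < X := by linarith
    have hb1 : C / c₁ < X := by
      have := le_max_left (C / c₁) (2 * C * M / c₂)
      linarith
    have hb2 : 2 * C * M / c₂ < X := by
      have := le_max_right (C / c₁) (2 * C * M / c₂)
      linarith
    have hX13 : (X : ℝ) ≤ (X : ℝ) ^ 13 := by
      calc (X : ℝ) = (X : ℝ) ^ 1 := (pow_one _).symm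
        _ ≤ (X : ℝ) ^ 13 := pow_le_pow_right₀ hX1 (by norm_num)
    -- the error term
    have herr : ∀ D, IsFund D → D ≤ X →
        |Lone D - la (fun n => (chi D n : ℝ)) (X ^ 16)| ≤ C / (X : ℝ) ^ 14 := by
      intro D hD hDX
      have h1 := hN D hD (X ^ 16) (Nat.one_le_pow _ _ (by omega))
      have hDr : (1 : ℝ) < D := by exact_mod_cast hD.1
      have hDXr : (D : ℝ) ≤ X := by exact_mod_cast hDX
      have h2 : √(D : ℝ) ≤ X := by
        refine (Real.sqrt_le_sqrt hDXr).trans ?_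
        rw [Real.sqrt_le_left (by linarith)]
        nlinarith
      have h3 : Real.log D ≤ X := by
        have := Real.log_le_sub_one_of_pos (by linarith : (0 : ℝ) < D)
        linarith
      have h4 : C * √(D : ℝ) * Real.log D / ((X ^ 16 : ℕ) : ℝ) ≤ C / (X : ℝ) ^ 14 := by
        push_cast
        rw [div_le_div_iff₀ (by positivity) (by positivity)]
        have h5 : √(D : ℝ) * Real.log D ≤ X * X :=
          mul_le_mul h2 h3 (Real.log_nonneg hDr.le) hXpos.le
        calc C * √(D : ℝ) * Real.log D * (X : ℝ) ^ 14 =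
              C * (√(D : ℝ) * Real.log D) * (X : ℝ) ^ 14 := by ring
          _ ≤ C * (X * X) * (X : ℝ) ^ 14 := by
              refine mul_le_mul_of_nonneg_right ?_ (by positivity)
              exact mul_le_mul_of_nonneg_left h5 hC.le
          _ = C * (X : ℝ) ^ 16 := by ring
      exact h1.trans h4
    -- positivity
    have hlapos : ∀ D, IsFund D → D ≤ X → 0 < la (fun n => (chi D n : ℝ)) (X ^ 16) := by
      intro D hD hDX
      have h1 := (abs_le.1 (herr D hD hDX)).2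
      have h2 := hLone D hD
      have hDr : (0 : ℝ) < D := by exact_mod_cast (by have := hD.1; omega : 0 < D)
      have hDXr : (D : ℝ) ≤ X := by exact_mod_cast hDX
      have h3 : c₁ / X ≤ c₁ / D := div_le_div_of_nonneg_left hc₁.le hDr hDXr
      have h4 : C / (X : ℝ) ^ 14 < c₁ / X := by
        rw [div_lt_div_iff₀ (by positivity) hXpos]
        rw [div_lt_iff₀ hc₁] at hb1
        calc C * X < (X * c₁) * X := mul_lt_mul_of_pos_right hb1 hXpos
          _ ≤ ((X : ℝ) ^ 13 * c₁) * X := by gcongr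
          _ = c₁ * (X : ℝ) ^ 14 := by ring
      linarith
    -- the lower bound for the Euler product
    have hPElow : ∀ D, 1 / (M * X) ≤ PE D X := by
      intro D
      have h1 := hmer X (by omega)
      rw [prod_inv_distrib] at h1
      have h3 : 0 < ∏ p ∈ (Finset.Icc 1 X).filter Nat.Prime, (1 - 1 / (p : ℝ)) :=
        prod_pos fun p hp => (fac D (mem_filter.1 hp).2).1
      have h4 : (M * Real.log X)⁻¹ ≤ ∏ p ∈ (Finset.Icc 1 X).filter Nat.Prime,
          (1 - 1 / (p : ℝ)) := inv_le_of_inv_le₀ h3 h1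
      have h5 : ∏ p ∈ (Finset.Icc 1 X).filter Nat.Prime, (1 - 1 / (p : ℝ)) ≤ PE D X := by
        unfold PE
        exact Finset.prod_le_prod (fun p hp => (fac D (mem_filter.1 hp).2).1.le)
          (fun p hp => (fac D (mem_filter.1 hp).2).2.2.2)
      have hlX : 0 < Real.log X := Real.log_pos (by exact_mod_cast (by omega : 1 < X))
      have h6 : Real.log X ≤ X := by
        have := Real.log_le_sub_one_of_pos hXpos
        linarith
      have h7 : 1 / (M * X) ≤ (M * Real.log X)⁻¹ := by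
        rw [one_div]
        exact inv_anti₀ (by positivity) (mul_le_mul_of_nonneg_left h6 hM.le)
      exact h7.trans (h4.trans h5)
    -- the conclusion from the lower bound of `la`
    have hfin : ∀ D, IsFund D → D ≤ X → (X : ℝ) ≤ (D : ℝ) ^ A →
        c₂ * PP (fun n => (chi D n : ℝ)) X ≤ la (fun n => (chi D n : ℝ)) (X ^ 16) →
        c₂ / 2 / (K * A) ≤ Lone D / PE D D := by
      intro D hD hDX hDA h
      have hPP : PP (fun n => (chi D n : ℝ)) X = PE D X := rfl
      rw [hPP] at h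
      have h1 := (abs_le.1 (herr D hD hDX)).1
      have h2 := hPElow D
      have h3 : C / (X : ℝ) ^ 14 ≤ c₂ / 2 * PE D X := by
        refine le_trans ?_ (mul_le_mul_of_nonneg_left h2 (by positivity))
        rw [div_lt_iff₀ hc₂] at hb2
        rw [mul_one_div, div_le_div_iff₀ (by positivity) (by positivity)]
        have h4 : 2 * C * M ≤ (X : ℝ) ^ 13 * c₂ :=
          hb2.le.trans (mul_le_mul_of_nonneg_right hX13 hc₂.le)
        calc C * (M * X) = (2 * C * M) * (X / 2) := by ring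
          _ ≤ ((X : ℝ) ^ 13 * c₂) * (X / 2) := mul_le_mul_of_nonneg_right h4 (by positivity)
          _ = c₂ / 2 * (X : ℝ) ^ 14 := by ring
      have h5 : c₂ / 2 * PE D X ≤ Lone D := by linarith
      have h6 := PE_le D X hDX
      have hD2 : 2 ≤ D := hD.1
      have h7 := hrange D X hD2 hDX
      have hlD : 0 < Real.log D := Real.log_pos (by exact_mod_cast hD.1)
      have hDpos : (0 : ℝ) < D := by exact_mod_cast (by omega : 0 < D)
      have h8 : Real.log X / Real.log D ≤ A := by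
        rw [div_le_iff₀ hlD, ← Real.log_rpow hDpos]
        exact Real.log_le_log hXpos hDA
      have h9 : PE D D ≤ PE D X * (K * A) := by
        refine h6.trans (mul_le_mul_of_nonneg_left ?_ (PE_pos _ _).le)
        exact h7.trans (mul_le_mul_of_nonneg_left h8 hK.le)
      rw [le_div_iff₀ (PE_pos _ _)]
      have hKA : 0 < K * A := by positivity
      calc c₂ / 2 / (K * A) * PE D D ≤ c₂ / 2 / (K * A) * (PE D X * (K * A)) :=
            mul_le_mul_of_nonneg_left h9 (by positivity)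
        _ = c₂ / 2 * PE D X := by field_simp
        _ ≤ Lone D := h5
    have hXA : (X : ℝ) ≤ (X : ℝ) ^ A := by
      calc (X : ℝ) = (X : ℝ) ^ (1 : ℝ) := (Real.rpow_one _).symm
        _ ≤ (X : ℝ) ^ A := Real.rpow_le_rpow_of_exponent_le hX1 hA
    obtain ⟨hchr1, hchr12⟩ := hCHR X D₁ D₂ hD₁ hD₂ hlt.le le_rfl hlt.ne
    obtain ⟨hchr2, -⟩ := hCHR X D₂ D₁ hD₂ hD₁ le_rfl hlt.le hlt.ne'
    rcases hcomb X hXX₀ _ _ hchr1 hchr2 hchr12 (hlapos D₁ hD₁ hlt.le)
      (hlapos D₂ hD₂ le_rfl) with h | h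
    · left
      exact (min_le_left _ _).trans (hfin D₁ hD₁ hlt.le hle h)
    · right
      exact (min_le_left _ _).trans (hfin D₂ hD₂ le_rfl hXA h)

end Pool.Agent.N966.RP

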